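import Pool.Agent.Helper65.EH.Defs

set_option autoImplicit false

open MeasureTheory Metric Real Set

/-!
# The analytic inequality (weight `k`)
-/

namespace Pool.Agent.Helper65.EH

open Pool.Agent.Helper65.ET (pt Per hh HH kap kap' KK BB cay cc Dir Adm dc Fr ind cont_comp
  kap_continuous KK_continuous BB_continuous BB_nonneg BB_le abs_kap_le abs_KK_le
  cay_im_continuous cay_re_continuous cay_re_cc_pos cay_re_cc_ge cay_re_cc_le shift_le
  hh_continuous HH_continuous HH_of_le HH_of_ge int_lin2 int_const_le)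

variable {k : ℝ} {F F1 F2 : ℂ → ℂ}

lemma pw_nonneg {y : ℝ} (hy : 0 ≤ y) : 0 ≤ pw k y := Real.rpow_nonneg hy _
lemma pw_pos {y : ℝ} (hy : 0 < y) : 0 < pw k y := Real.rpow_pos_of_pos hy _

lemma vv_nonneg (F : ℂ → ℂ) (x : ℝ) {y : ℝ} (hy : 0 ≤ y) : 0 ≤ vv k F x y := by
  have := pw_nonneg (k := k) hy
  unfold vv; positivity
lemma qq_nonneg (F F1 : ℂ → ℂ) (x : ℝ) {y : ℝ} (hy : 0 ≤ y) : 0 ≤ qq k F F1 x y := by
  have := pw_nonneg (k := k) hy
  unfold qq; positivity

lemma zr_sq_le (F F1 : ℂ → ℂ) (x y : ℝ) :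
    zr k F F1 x y ^ 2 ≤ vv k F x y * qq k F F1 x y := by
  have : vv k F x y * qq k F F1 x y - zr k F F1 x y ^ 2 =
      (pw k y * (2 * y * ((F (pt x y)).re * (F1 (pt x y)).im -
        (F (pt x y)).im * (F1 (pt x y)).re))) ^ 2 := by
    unfold zr vv qq
    ring
  nlinarith [sq_nonneg (pw k y * (2 * y * ((F (pt x y)).re * (F1 (pt x y)).im -
        (F (pt x y)).im * (F1 (pt x y)).re)))]

lemma abs_zr_le (F F1 : ℂ → ℂ) (x : ℝ) {y : ℝ} (hy : 0 ≤ y) :
    |zr k F F1 x y| ≤ (vv k F x y + qq k F F1 x y) / 2 := by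
  have h := zr_sq_le (k := k) F F1 x y
  have h1 := vv_nonneg (k := k) F x hy
  have h2 := qq_nonneg (k := k) F F1 x hy
  apply abs_le_of_sq_le_sq _ (by positivity)
  nlinarith [sq_nonneg (vv k F x y - qq k F F1 x y)]

section cont

variable {X : Type*} [TopologicalSpace X] {x y : X → ℝ}

lemma cont_pw (hy : Continuous y) (hpos : ∀ t, 0 < y t) : Continuous (fun t => pw k (y t)) := by
  unfold pw
  exact hy.rpow_const (fun t => Or.inl (hpos t).ne')

lemma cont_vv (hF : ContinuousOn F {s : ℂ | 0 < s.re}) (hx : Continuous x) (hy : Continuous y)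
    (hpos : ∀ t, 0 < y t) : Continuous (fun t => vv k F (x t) (y t)) := by
  have hp := cont_pw (k := k) hy hpos
  have aux : ∀ (A : X → ℂ) (p : X → ℝ), Continuous A → Continuous p →
      Continuous (fun t => p t * ((A t).re ^ 2 + (A t).im ^ 2)) := by
    intro A p hA hp; fun_prop
  exact aux _ _ (cont_comp hF hx hy hpos) hp

lemma cont_zr (h : Per F F1 F2) (hx : Continuous x) (hy : Continuous y)
    (hpos : ∀ t, 0 < y t) : Continuous (fun t => zr k F F1 (x t) (y t)) := by
  have hp := cont_pw (k := k) hy hpos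
  have aux : ∀ (A B : X → ℂ) (p : X → ℝ), Continuous A → Continuous B → Continuous p →
      Continuous (fun t => p t * (2 * y t * ((A t).re * (B t).re + (A t).im * (B t).im) +
    k * ((A t).re ^ 2 + (A t).im ^ 2))) := by
    intro A B p hA hB hp; fun_prop
  exact aux _ _ _ (cont_comp h.c0 hx hy hpos) (cont_comp h.c1 hx hy hpos) hp

lemma cont_qq (h : Per F F1 F2) (hx : Continuous x) (hy : Continuous y)
    (hpos : ∀ t, 0 < y t) : Continuous (fun t => qq k F F1 (x t) (y t)) := by
  have hp := cont_pw (k := k) hy hpos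
  have aux : ∀ (A B : X → ℂ) (p : X → ℝ), Continuous A → Continuous B → Continuous p →
      Continuous (fun t => p t * ((2 * y t * (B t).re + k * (A t).re) ^ 2 +
    (2 * y t * (B t).im + k * (A t).im) ^ 2)) := by
    intro A B p hA hB hp; fun_prop
  exact aux _ _ _ (cont_comp h.c0 hx hy hpos) (cont_comp h.c1 hx hy hpos) hp

lemma cont_GG (h : Per F F1 F2) (hx : Continuous x) (hy : Continuous y)
    (hpos : ∀ t, 0 < y t) : Continuous (fun t => GG k F F1 (x t) (y t)) := by
  have hv := cont_vv (k := k) h.c0 hx hy hpos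
  have hz := cont_zr (k := k) h hx hy hpos
  exact ((kap_continuous.comp hv).mul hz).sub (KK_continuous.comp hv)

lemma cont_flux (h : Per F F1 F2) (hx : Continuous x) (hy : Continuous y) (hpos : ∀ t, 0 < y t) :
    Continuous (fun t => flux k F F1 (x t) (y t)) := by
  have hv := cont_vv (k := k) h.c0 hx hy hpos
  have hq := cont_qq (k := k) h hx hy hpos
  exact (hq.mul (hh_continuous.comp hv)).sub (continuous_const.mul (HH_continuous.comp hv))

lemma cont_cavg [FirstCountableTopology X] (h : Per F F1 F2) (hx : Continuous x)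
    (hy : Continuous y) (hpos : ∀ t, 0 < y t) :
    Continuous (fun t => cavg k F (x t) (y t)) := by
  unfold cavg
  apply continuous_const.mul
  apply intervalIntegral.continuous_parametric_intervalIntegral_of_continuous'
  apply BB_continuous.comp
  apply cont_vv h.c0
  · exact (hx.comp continuous_fst).add
      ((hy.comp continuous_fst).mul (cay_im_continuous.comp continuous_snd))
  · exact (hy.comp continuous_fst).mul (cay_re_continuous.comp continuous_snd)
  · intro p; exact mul_pos (hpos _) (cay_re_cc_pos _)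

end cont

lemma abs_GG_le (x : ℝ) {y : ℝ} (hy : 0 ≤ y) :
    |GG k F F1 x y| ≤ 2 * (vv k F x y + qq k F F1 x y) := by
  unfold GG
  have h1 := vv_nonneg (k := k) F x hy
  have h2 := qq_nonneg (k := k) F F1 x hy
  have h3 : |kap (vv k F x y) * zr k F F1 x y| ≤ 1 * ((vv k F x y + qq k F F1 x y) / 2) := by
    rw [abs_mul]
    exact mul_le_mul (abs_kap_le h1) (abs_zr_le F F1 x hy) (abs_nonneg _) (by norm_num)
  have h4 := abs_KK_le h1
  calc |kap (vv k F x y) * zr k F F1 x y - KK (vv k F x y)|
      ≤ |kap (vv k F x y) * zr k F F1 x y| + |KK (vv k F x y)| := abs_sub _ _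
    _ ≤ _ := by linarith

lemma cavg_nonneg (x y : ℝ) : 0 ≤ cavg k F x y := by
  unfold cavg
  apply mul_nonneg (by positivity)
  apply intervalIntegral.integral_nonneg (by positivity)
  intro φ _; exact BB_nonneg _

/-- the certificate at a point of the half plane -/
theorem point_ineq (hC : S_CERT) (hR : S_CIRC) (hk : 0 < k) (hk3 : k ≤ 1 / 3) (h : Per F F1 F2)
    (x : ℝ) {y : ℝ} (hy : 0 < y) :
    0 ≤ vv k F x y ^ 3 - 3 * vv k F x y + 2 - k / 8 - 12 * BB (vv k F x y) +
      12 * cavg k F x y + flux k F F1 x y := by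
  have := hC k (vv k F x y) (qq k F F1 x y) (cavg k F x y) hk.le hk3 (vv_nonneg _ _ hy.le)
    (qq_nonneg _ _ _ hy.le) (cavg_nonneg x y)
    (fun c t hc ht => hR k hk hk3 F F1 F2 h x y hy c t hc ht)
  unfold flux
  linarith

/-- `∫ B(v) dx` at height `y` -/
noncomputable def bB (k : ℝ) (F : ℂ → ℂ) (y : ℝ) : ℝ := ∫ x in (0 : ℝ)..2 * π, BB (vv k F x y)

lemma bB_nonneg (y : ℝ) : 0 ≤ bB k F y := by
  unfold bB
  apply intervalIntegral.integral_nonneg (by positivity)
  intro x _; exact BB_nonneg _

lemma cont_bB (h : Per F F1 F2) {X : Type*} [TopologicalSpace X] [FirstCountableTopology X]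
    {y : X → ℝ} (hy : Continuous y) (hpos : ∀ t, 0 < y t) : Continuous (fun t => bB k F (y t)) := by
  unfold bB
  apply intervalIntegral.continuous_parametric_intervalIntegral_of_continuous'
  have : Continuous (fun p : X × ℝ => vv k F p.2 (y p.1)) :=
    cont_vv h.c0 continuous_snd (hy.comp continuous_fst) (fun _ => hpos _)
  exact BB_continuous.comp this

lemma bB_le (h : Per F F1 F2) {y C : ℝ} (hy : 0 < y)
    (hC : ∫ x in (0 : ℝ)..2 * π, vv k F x y ≤ C) : bB k F y ≤ C := by
  refine le_trans ?_ hC
  unfold bB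
  have hv : Continuous (fun x => vv k F x y) :=
    cont_vv h.c0 continuous_id continuous_const (fun _ => hy)
  apply intervalIntegral.integral_mono_on (by positivity)
  · exact (BB_continuous.comp hv).intervalIntegrable _ _
  · exact hv.intervalIntegrable _ _
  · intro x _; exact BB_le (vv_nonneg _ _ hy.le)

lemma vv_periodic (h : Per F F1 F2) (y : ℝ) :
    Function.Periodic (fun x => vv k F x y) (2 * π) := by
  intro x
  simp only [vv, h.per0]

lemma integral_BB_shift (h : Per F F1 F2) (a y : ℝ) :
    ∫ x in (0 : ℝ)..2 * π, BB (vv k F (x + a) y) = bB k F y := by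
  unfold bB
  rw [intervalIntegral.integral_comp_add_right (fun x => BB (vv k F x y)) a]
  have hp : Function.Periodic (fun x => BB (vv k F x y)) (2 * π) := by
    intro x; simp only [vv_periodic h y x]
  have := hp.intervalIntegral_add_eq a 0
  rw [zero_add] at this
  rw [zero_add, ← this, add_comm]

lemma integral_cavg (h : Per F F1 F2) {y : ℝ} (hy : 0 < y) :
    ∫ x in (0 : ℝ)..2 * π, cavg k F x y =
      (2 * π)⁻¹ * ∫ φ in (0 : ℝ)..2 * π, bB k F (y * (cay (cc φ)).re) := by
  unfold cavg
  rw [intervalIntegral.integral_const_mul]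
  congr 1
  rw [intervalIntegral_intervalIntegral_swap]
  · apply intervalIntegral.integral_congr
    intro φ _
    simp only
    exact integral_BB_shift h _ _
  · have hc : Continuous (fun p : ℝ × ℝ =>
        BB (vv k F (p.1 + y * (cay (cc p.2)).im) (y * (cay (cc p.2)).re))) := by
      apply BB_continuous.comp
      apply cont_vv h.c0
      · exact continuous_fst.add (continuous_const.mul (cay_im_continuous.comp continuous_snd))
      · exact continuous_const.mul (cay_re_continuous.comp continuous_snd)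
      · intro p; exact mul_pos hy (cay_re_cc_pos _)
    have : IntegrableOn (Function.uncurry fun x φ =>
        BB (vv k F (x + y * (cay (cc φ)).im) (y * (cay (cc φ)).re)))
        (uIcc 0 (2 * π) ×ˢ uIcc 0 (2 * π)) := by
      apply ContinuousOn.integrableOn_compact (isCompact_uIcc.prod isCompact_uIcc)
      exact hc.continuousOn
    exact this.mono_set (prod_mono uIoc_subset_uIcc uIoc_subset_uIcc)

theorem integral_cavg_le (h : Per F F1 F2) {C a b : ℝ} (ha : 0 ≤ a) (hab : a ≤ b)
    (hC : ∀ y, 0 < y → y ≤ 9 → ∫ x in (0 : ℝ)..2 * π, vv k F x y ≤ C) :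
    ∫ τ in a..b, ∫ x in (0 : ℝ)..2 * π, cavg k F x (exp (-τ)) ≤
      (∫ τ in a..b, bB k F (exp (-τ))) + log 9 * C := by
  have hcf : Continuous (fun τ : ℝ => bB k F (exp (-τ))) :=
    cont_bB h (by fun_prop) (fun _ => exp_pos _)
  have hcg : Continuous (fun p : ℝ × ℝ => bB k F (exp (-p.1) * (cay (cc p.2)).re)) := by
    apply cont_bB h
    · exact (by fun_prop : Continuous (fun p : ℝ × ℝ => exp (-p.1))).mul
        (cay_re_continuous.comp continuous_snd)
    · intro p; exact mul_pos (exp_pos _) (cay_re_cc_pos _)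
  have e1 : ∀ τ : ℝ, ∫ x in (0 : ℝ)..2 * π, cavg k F x (exp (-τ)) =
      (2 * π)⁻¹ * ∫ φ in (0 : ℝ)..2 * π, bB k F (exp (-τ) * (cay (cc φ)).re) :=
    fun τ => integral_cavg h (exp_pos _)
  simp_rw [e1]
  rw [intervalIntegral.integral_const_mul, intervalIntegral_intervalIntegral_swap]
  · have h2 : ∀ φ : ℝ, ∫ τ in a..b, bB k F (exp (-τ) * (cay (cc φ)).re) ≤
        (∫ τ in a..b, bB k F (exp (-τ))) + log 9 * C := by
      intro φ
      have hm := cay_re_cc_pos φ
      have e2 : ∀ τ : ℝ, bB k F (exp (-τ) * (cay (cc φ)).re) =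
          (fun τ => bB k F (exp (-τ))) (τ - log (cay (cc φ)).re) := by
        intro τ
        simp only
        rw [neg_sub, sub_eq_add_neg, Real.exp_add, Real.exp_log hm, mul_comm]
      simp_rw [e2]
      apply shift_le _ hcf (fun τ => bB_nonneg _) _ _ _ _ _ ha hab
      · rw [abs_le]
        constructor
        · rw [neg_le, ← Real.log_inv]
          apply Real.log_le_log (by positivity)
          rw [inv_le_comm₀ hm (by norm_num)]
          have := cay_re_cc_ge φ
          rw [one_div] at this; exact this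
        · exact Real.log_le_log hm (cay_re_cc_le φ)
      · intro τ hτ
        apply bB_le h (exp_pos _)
        apply hC _ (exp_pos _)
        calc exp (-τ) ≤ exp (log 9) := by gcongr; linarith
          _ = 9 := Real.exp_log (by norm_num)
    have h3 : ∫ φ in (0 : ℝ)..2 * π, ∫ τ in a..b, bB k F (exp (-τ) * (cay (cc φ)).re) ≤
        ∫ φ in (0 : ℝ)..2 * π, ((∫ τ in a..b, bB k F (exp (-τ))) + log 9 * C) := by
      apply intervalIntegral.integral_mono_on (by positivity) _ (by simp) (fun φ _ => h2 φ)
      apply Continuous.intervalIntegrable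
      apply intervalIntegral.continuous_parametric_intervalIntegral_of_continuous'
      exact hcg.comp continuous_swap
    rw [intervalIntegral.integral_const, smul_eq_mul, sub_zero] at h3
    calc (2 * π)⁻¹ * ∫ φ in (0 : ℝ)..2 * π, ∫ τ in a..b,
          bB k F (exp (-τ) * (cay (cc φ)).re)
        ≤ (2 * π)⁻¹ * (2 * π * ((∫ τ in a..b, bB k F (exp (-τ))) + log 9 * C)) := by
          gcongr
      _ = _ := by field_simp
  · have : IntegrableOn (Function.uncurry fun τ φ => bB k F (exp (-τ) * (cay (cc φ)).re))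
        (uIcc a b ×ˢ uIcc 0 (2 * π)) := by
      apply ContinuousOn.integrableOn_compact (isCompact_uIcc.prod isCompact_uIcc)
      exact hcg.continuousOn
    exact this.mono_set (prod_mono uIoc_subset_uIcc uIoc_subset_uIcc)

/-- the total defect at height `y` -/
noncomputable def defect (k : ℝ) (F F1 : ℂ → ℂ) (y : ℝ) : ℝ :=
  -12 * (bB k F y - ∫ x in (0 : ℝ)..2 * π, cavg k F x y) + ∫ x in (0 : ℝ)..2 * π, flux k F F1 x y

lemma cont_defect (h : Per F F1 F2) : Continuous (fun τ : ℝ => defect k F F1 (exp (-τ))) := by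
  have hy : Continuous (fun τ : ℝ => exp (-τ)) := by fun_prop
  have h1 := cont_bB (k := k) h hy (fun _ => exp_pos _)
  have h2 : Continuous (fun τ : ℝ => ∫ x in (0 : ℝ)..2 * π, cavg k F x (exp (-τ))) := by
    apply intervalIntegral.continuous_parametric_intervalIntegral_of_continuous'
    exact cont_cavg h continuous_snd (hy.comp continuous_fst) (fun _ => exp_pos _)
  have h3 : Continuous (fun τ : ℝ => ∫ x in (0 : ℝ)..2 * π, flux k F F1 x (exp (-τ))) := by
    apply intervalIntegral.continuous_parametric_intervalIntegral_of_continuous'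
    exact cont_flux h continuous_snd (hy.comp continuous_fst) (fun _ => exp_pos _)
  unfold defect
  exact (continuous_const.mul (h1.sub h2)).add h3

lemma integral_GG_le (h : Per F F1 F2) {y Cv Cq : ℝ} (hy : 0 < y)
    (hv : ∫ x in (0 : ℝ)..2 * π, vv k F x y ≤ Cv)
    (hq : ∫ x in (0 : ℝ)..2 * π, qq k F F1 x y ≤ Cq) :
    |∫ x in (0 : ℝ)..2 * π, GG k F F1 x y| ≤ 2 * (Cv + Cq) := by
  have cv : Continuous (fun x => vv k F x y) :=
    cont_vv h.c0 continuous_id continuous_const fun _ => hy
  have cq : Continuous (fun x => qq k F F1 x y) :=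
    cont_qq h continuous_id continuous_const fun _ => hy
  have h1 : ∀ x, ‖GG k F F1 x y‖ ≤ 2 * (vv k F x y + qq k F F1 x y) := fun x => abs_GG_le x hy.le
  have h2 := intervalIntegral.norm_integral_le_of_norm_le (f := fun x => GG k F F1 x y)
    (g := fun x => 2 * (vv k F x y + qq k F F1 x y)) (a := 0) (b := 2 * π) (μ := volume)
    (by positivity) (Filter.Eventually.of_forall fun x _ => h1 x)
    ((continuous_const.mul (cv.add cq)).intervalIntegrable _ _)
  rw [Real.norm_eq_abs] at h2
  refine h2.trans ?_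
  rw [intervalIntegral.integral_const_mul, intervalIntegral.integral_add
    (cv.intervalIntegrable _ _) (cq.intervalIntegrable _ _)]
  linarith

theorem integral_defect_le (hFl : S_FLUX) (hk : 0 < k) (h : Per F F1 F2) {Cv Cq : ℝ}
    (hv : ∀ y, 0 < y → y ≤ 9 → ∫ x in (0 : ℝ)..2 * π, vv k F x y ≤ Cv)
    (hq : ∀ y, 0 < y → y ≤ 1 → ∫ x in (0 : ℝ)..2 * π, qq k F F1 x y ≤ Cq) (a b : ℝ)
    (ha : 0 ≤ a) (hab : a ≤ b) :
    ∫ τ in a..b, defect k F F1 (exp (-τ)) ≤ 12 * (log 9 * Cv) + 4 * (Cv + Cq) := by
  have hy : Continuous (fun τ : ℝ => exp (-τ)) := by fun_prop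
  have h1 := cont_bB (k := k) h hy (fun _ => exp_pos _)
  have h2 : Continuous (fun τ : ℝ => ∫ x in (0 : ℝ)..2 * π, cavg k F x (exp (-τ))) := by
    apply intervalIntegral.continuous_parametric_intervalIntegral_of_continuous'
    exact cont_cavg h continuous_snd (hy.comp continuous_fst) (fun _ => exp_pos _)
  have h3 : Continuous (fun τ : ℝ => ∫ x in (0 : ℝ)..2 * π, flux k F F1 x (exp (-τ))) := by
    apply intervalIntegral.continuous_parametric_intervalIntegral_of_continuous'
    exact cont_flux h continuous_snd (hy.comp continuous_fst) (fun _ => exp_pos _)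
  unfold defect
  rw [int_lin2 _ _ _ h1 h2 h3, hFl k hk F F1 F2 h a b]
  have h4 := integral_cavg_le h ha hab hv
  have ea : exp (-a) ≤ 1 := by rw [Real.exp_le_one_iff]; linarith
  have eb : exp (-b) ≤ 1 := by rw [Real.exp_le_one_iff]; linarith
  have h5 := (abs_le.mp (integral_GG_le h (exp_pos (-a)) (hv _ (exp_pos _) (by linarith))
    (hq _ (exp_pos _) ea))).2
  have h6 := (abs_le.mp (integral_GG_le h (exp_pos (-b)) (hv _ (exp_pos _) (by linarith))
    (hq _ (exp_pos _) eb))).1
  linarith

lemma pow_ge (n : ℕ) {v : ℝ} (hv : 0 ≤ v) :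
    v ^ 3 - 3 * v + 2 ≤ v ^ (n + 3) - ((n : ℝ) + 3) * v + (n + 2) := by
  induction n with
  | zero => simp
  | succ n ih =>
    have h1 : 0 ≤ (v - 1) * (v ^ (n + 3) - 1) := by
      rcases le_total 1 v with h | h
      · have := one_le_pow₀ h (n := n + 3)
        apply mul_nonneg <;> linarith
      · have := pow_le_one₀ hv h (n := n + 3)
        apply mul_nonneg_of_nonpos_of_nonpos <;> linarith
    have h2 : v ^ (n + 1 + 3) = v * v ^ (n + 3) := by ring
    rw [h2]
    push_cast
    nlinarith

lemma int_lin3 (f1 f2 f3 f4 : ℝ → ℝ) (h1 : Continuous f1) (h2 : Continuous f2)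
    (h3 : Continuous f3) (h4 : Continuous f4) (e c a b : ℝ) :
    ∫ x in a..b, (e * f1 x - c + 12 * f2 x - 12 * f3 x - f4 x) =
      e * (∫ x in a..b, f1 x) - c * (b - a) + 12 * (∫ x in a..b, f2 x) -
        12 * (∫ x in a..b, f3 x) - ∫ x in a..b, f4 x := by
  rw [intervalIntegral.integral_sub (by apply Continuous.intervalIntegrable; fun_prop)
      (by apply Continuous.intervalIntegrable; fun_prop),
    intervalIntegral.integral_sub (by apply Continuous.intervalIntegrable; fun_prop)
      (by apply Continuous.intervalIntegrable; fun_prop),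
    intervalIntegral.integral_add (by apply Continuous.intervalIntegrable; fun_prop)
      (by apply Continuous.intervalIntegrable; fun_prop),
    intervalIntegral.integral_sub (by apply Continuous.intervalIntegrable; fun_prop)
      (by apply Continuous.intervalIntegrable; fun_prop),
    intervalIntegral.integral_const_mul, intervalIntegral.integral_const_mul,
    intervalIntegral.integral_const_mul, intervalIntegral.integral_const, smul_eq_mul]
  ring

/-- the local inequality at height `y`, away from `x = 0` -/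
theorem local_ineq (hCt : S_CERT) (hR : S_CIRC) (hk : 0 < k) (hk3 : k ≤ 1 / 3) (n : ℕ)
    (h : Per F F1 F2) {y d P : ℝ} (hy : 0 < y) (hd : 0 ≤ d) (hd' : d ≤ π)
    (hP : ∀ x, vv k F x y + qq k F F1 x y ≤ P) :
    (n + 3) * (∫ x in (0 : ℝ)..2 * π, vv k F x y) - (n + 2 - k / 8) * (2 * π) -
      defect k F F1 y - 2 * (n + 16) * d * P ≤
      ∫ x in d..2 * π - d, vv k F x y ^ (n + 3) := by
  have cv : Continuous (fun x => vv k F x y) :=
    cont_vv h.c0 continuous_id continuous_const fun _ => hy
  have cB : Continuous (fun x => BB (vv k F x y)) := BB_continuous.comp cv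
  have cc' : Continuous (fun x => cavg k F x y) :=
    cont_cavg h continuous_id continuous_const fun _ => hy
  have cf : Continuous (fun x => flux k F F1 x y) :=
    cont_flux h continuous_id continuous_const fun _ => hy
  set Y : ℝ → ℝ := fun x => ((n : ℝ) + 3) * vv k F x y - (n + 2 - k / 8) +
    12 * BB (vv k F x y) - 12 * cavg k F x y - flux k F F1 x y with hY
  have cY : Continuous Y := by
    rw [hY]
    exact ((((continuous_const.mul cv).sub continuous_const).add (continuous_const.mul cB)).sub
      (continuous_const.mul cc')).sub cf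
  have h1 : ∫ x in d..2 * π - d, Y x ≤ ∫ x in d..2 * π - d, vv k F x y ^ (n + 3) := by
    apply intervalIntegral.integral_mono_on (by linarith) (cY.intervalIntegrable _ _)
      ((cv.pow (n + 3)).intervalIntegrable _ _)
    intro x _
    have h2 := point_ineq hCt hR hk hk3 h x hy
    have h3 := pow_ge n (vv_nonneg (k := k) F x hy.le)
    rw [hY]; simp only [Pi.pow_apply]
    linarith
  have hYP : ∀ x, Y x ≤ (n + 16) * P := by
    intro x
    have h2 := vv_nonneg (k := k) F x hy.le
    have h3 := qq_nonneg (k := k) F F1 x hy.le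
    have h4 := BB_le h2
    have h5 := cavg_nonneg (k := k) (F := F) x y
    have h6 := hP x
    have h7 : -flux k F F1 x y ≤ qq k F F1 x y := by
      unfold flux
      have h8 : HH (vv k F x y) ≤ 0 := by
        rcases le_total (vv k F x y) (19 / 20) with h9 | h9
        · rw [HH_of_le h9]; nlinarith
        · rw [HH_of_ge h9]; norm_num
      have h10 : -hh (vv k F x y) ≤ 1 := by
        unfold hh
        have : max 0 (19 / 20 - vv k F x y) ≤ 1 := max_le (by norm_num) (by linarith)
        linarith
      nlinarith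
    have h11 : ((n : ℝ) + 16) * (vv k F x y + qq k F F1 x y) ≤ (n + 16) * P := by gcongr
    have h12 : 0 ≤ (n : ℝ) * qq k F F1 x y := by positivity
    have h13 : (0 : ℝ) ≤ n := by positivity
    rw [hY]; simp only
    nlinarith
  have h2 : ∫ x in (0 : ℝ)..2 * π, Y x = (n + 3) * (∫ x in (0 : ℝ)..2 * π, vv k F x y) -
      (n + 2 - k / 8) * (2 * π) - defect k F F1 y := by
    rw [hY, int_lin3 _ _ _ _ cv cB cc' cf]
    unfold defect bB
    ring
  have h3 : ∫ x in (0 : ℝ)..2 * π, Y x =
      (∫ x in (0 : ℝ)..d, Y x) + (∫ x in d..2 * π - d, Y x) + ∫ x in (2 * π - d)..2 * π, Y x := by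
    rw [intervalIntegral.integral_add_adjacent_intervals (cY.intervalIntegrable _ _)
      (cY.intervalIntegrable _ _),
      intervalIntegral.integral_add_adjacent_intervals (cY.intervalIntegrable _ _)
      (cY.intervalIntegrable _ _)]
  have h4 := int_const_le Y cY 0 d ((n + 16) * P) hd hYP
  have h5 := int_const_le Y cY (2 * π - d) (2 * π) ((n + 16) * P) (by linarith) hYP
  linarith

end Pool.Agent.Helper65.EH
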