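import Pool.Agent.Helper65.ET.Dens

set_option autoImplicit false

/-!
# Erdős–Turán for bases of order `h ≥ 3`: definitions and the statements of the parts

Weight `k = 1 / h`, `v = y ^ k |F|²`, `q = y ^ k |2 y F' + k F|²`.
-/

open MeasureTheory Metric Real Set

namespace Pool.Agent.Helper65.EH

open Pool.Agent.Helper65.ET (pt Per hh HH kap kap' KK BB cay cc Dir Adm dc Fr ind)

/-- `y ^ k` -/
noncomputable def pw (k y : ℝ) : ℝ := y ^ k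

/-- `v(x, y) = y ^ k |F(y + i x)|²` -/
noncomputable def vv (k : ℝ) (F : ℂ → ℂ) (x y : ℝ) : ℝ :=
  pw k y * ((F (pt x y)).re ^ 2 + (F (pt x y)).im ^ 2)

/-- `q(x, y) = y ^ k |2 y F' + k F|²` -/
noncomputable def qq (k : ℝ) (F F1 : ℂ → ℂ) (x y : ℝ) : ℝ :=
  pw k y * ((2 * y * (F1 (pt x y)).re + k * (F (pt x y)).re) ^ 2 +
    (2 * y * (F1 (pt x y)).im + k * (F (pt x y)).im) ^ 2)

/-- real part of `Z = y ^ k conj(F) (2 y F' + k F)` -/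
noncomputable def zr (k : ℝ) (F F1 : ℂ → ℂ) (x y : ℝ) : ℝ :=
  pw k y * (2 * y * ((F (pt x y)).re * (F1 (pt x y)).re + (F (pt x y)).im * (F1 (pt x y)).im) +
    k * ((F (pt x y)).re ^ 2 + (F (pt x y)).im ^ 2))

/-- `G = κ(v) Re Z - K(v)` -/
noncomputable def GG (k : ℝ) (F F1 : ℂ → ℂ) (x y : ℝ) : ℝ :=
  kap (vv k F x y) * zr k F F1 x y - KK (vv k F x y)

/-- the flux density -/
noncomputable def flux (k : ℝ) (F F1 : ℂ → ℂ) (x y : ℝ) : ℝ :=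
  qq k F F1 x y * hh (vv k F x y) - k * HH (vv k F x y)

/-- the circle average of `B(v)` -/
noncomputable def cavg (k : ℝ) (F : ℂ → ℂ) (x y : ℝ) : ℝ :=
  (2 * π)⁻¹ * ∫ φ in (0 : ℝ)..2 * π,
    BB (vv k F (x + y * (cay (cc φ)).im) (y * (cay (cc φ)).re))

/-- `h`-fold convolution power -/
noncomputable def cp (a : ℕ → ℝ) : ℕ → ℕ → ℝ
  | 0, n => if n = 0 then 1 else 0
  | h + 1, n => ∑ p ∈ Finset.HasAntidiagonal.antidiagonal n, a p.1 * cp a h p.2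

/-- unordered representation function of order `h` -/
noncomputable def rep (A : Set ℕ) (h n : ℕ) : ℕ :=
  Set.ncard {f : Fin h → ℕ | Monotone f ∧ (∀ i, f i ∈ A) ∧ ∑ i, f i = n}

/-- numbers `2 a + (sum of j elements of A)` -/
def dset (A : Set ℕ) (j : ℕ) : Set ℕ :=
  {n | ∃ a ∈ A, ∃ s : Multiset ℕ, s.card = j ∧ (∀ x ∈ s, x ∈ A) ∧ n = 2 * a + s.sum}

/-! ## The parts -/

/-- certificate (adapt `ET/Cert.lean`; linear in `k`, so only `k = 0` and `k = 1/3` matter) -/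
def S_CERT : Prop := ∀ k v q W : ℝ, 0 ≤ k → k ≤ 1 / 3 → 0 ≤ v → 0 ≤ q → 0 ≤ W →
  (∀ c t : ℝ, 0 ≤ c → 0 ≤ t →
    2 * t * (√(284 / 625) * √q + 2 * c * √(71 / 100) * √v - (1 + c ^ 2)) -
      t ^ 2 * (1 + 4 * c ^ 2 + c ^ 4) ≤ W) →
  0 ≤ v ^ 3 - 3 * v + 2 - k / 8 - 12 * BB v + 12 * W + q * hh v - k * HH v

/-- circle inequality (adapt `ET/Circle2.lean`; `gg` gets `(1 - w) ^ (-k)`, the constant is
`(3/5) ^ k ≥ √(71/100)`) -/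
def S_CIRC : Prop := ∀ k : ℝ, 0 < k → k ≤ 1 / 3 → ∀ F F1 F2 : ℂ → ℂ, Per F F1 F2 →
  ∀ x y : ℝ, 0 < y → ∀ c t : ℝ, 0 ≤ c → 0 ≤ t →
    2 * t * (√(284 / 625) * √(qq k F F1 x y) + 2 * c * √(71 / 100) * √(vv k F x y) -
      (1 + c ^ 2)) - t ^ 2 * (1 + 4 * c ^ 2 + c ^ 4) ≤ cavg k F x y

/-- flux identity (adapt `ET/Flux2.lean`, `ET/Flux3.lean`) -/
def S_FLUX : Prop := ∀ k : ℝ, 0 < k → ∀ F F1 F2 : ℂ → ℂ, Per F F1 F2 → ∀ a b : ℝ,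
  ∫ τ in a..b, ∫ x in (0 : ℝ)..2 * π, flux k F F1 x (exp (-τ)) =
    (∫ x in (0 : ℝ)..2 * π, GG k F F1 x (exp (-a))) - ∫ x in (0 : ℝ)..2 * π, GG k F F1 x (exp (-b))

/-- ordered versus unordered representations -/
def S_COMB : Prop := ∀ (A : Set ℕ) (h n : ℕ),
  cp (ind A) h n ≤ (h.factorial : ℝ) * rep A h n ∧
    (2 ≤ h → n ∉ dset A (h - 2) → cp (ind A) h n = (h.factorial : ℝ) * rep A h n)

/-- the integers with a repeated summand -/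
def S_DSET : Prop := ∀ (A : Set ℕ) (j : ℕ) (t : ℝ), 0 < t →
  ∑' n : ℕ, ind (dset A j) n * exp (-(t * n)) ≤ Fr (ind A) t ^ (j + 1)

/-- powers of the generating function (`Dir`, `Fr`, `Adm` in `ET/Dir.lean`, `ET/Arith.lean`) -/
def S_POW : Prop := ∀ a : ℕ → ℝ, (∀ n, a n = 0 ∨ a n = 1) → ∀ h : ℕ,
  (∀ n, 0 ≤ cp a h n) ∧ Adm (cp a h) ∧
  (∀ t : ℝ, 0 < t → Fr a t ^ h = ∑' n : ℕ, cp a h n * exp (-(t * n))) ∧
  (∀ s : ℂ, 0 < s.re → Dir a s ^ h = Dir (cp a h) s)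

/-- the polynomial inequality.  With `X - 1 - h (x - 1) ≤ (h - 1) (X - 1)²`, `X = x ^ h` (induction
on `h` for `≤ (h - 1) (x - 1) (X - 1)`), `θ = (1 - 1/(8 h (h - 1)))⁻¹`, `κ = θ ^ (h - 1) ≥ 1 + 1/(8 h)`,
`κ ≤ 24/23`, `M₀ = √(α β) / 2`, `m₀ ^ h = M₀`, `lam = θ m₀`, `x = m / m₀` the right side is
`2 M₀² (X - 1)² + (κ - (√β - √α)²) M₀ X - κ M₀ (X - 1 - h (x - 1))`. -/
def S_POLY : Prop := ∀ (h : ℕ) (α β : ℝ), 3 ≤ h → 2 * (h : ℝ) ≤ α → α ≤ β →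
  (√β - √α) ^ 2 < 1 + 1 / (8 * h) →
  ∃ lam : ℝ, 0 < lam ∧ ∃ δ : ℝ, 0 < δ ∧ ∀ m : ℝ, 0 ≤ m →
    δ ≤ 2 * (m ^ h) ^ 2 - (α + β) * m ^ h + α * β / 2 + h * lam ^ (h - 1) * m -
      (h - 1 - 1 / (8 * h)) * lam ^ h

end Pool.Agent.Helper65.EH
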