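import Pool.Agent.Helper65.EH.Window

set_option autoImplicit false

open MeasureTheory Metric Real Set Filter

/-!
# From scales to densities
-/

namespace Pool.Agent.Helper65.EH

open Pool.Agent.Helper65.ET (pt pt_re Dir Adm dc Fr adm_a a_sq a_nonneg dc_mul Dir_mul Dir_add
  integral_norm_Dir summable_a norm_F_le norm_F1_le Fr_anti Fr_nonneg per_Dir ind ind_nonneg
  ind_le_one ind_zero_or_one tsum_ind_le)

set_option maxHeartbeats 1000000 in
/-- main density statement in terms of the ordered representation function -/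
theorem density (hP : Parts) (hPo : S_POLY) (hDs : S_DSET) (n : ℕ) {C α β : ℝ} (hC1 : 1 ≤ C)
    (hα : 2 * ((n : ℝ) + 3) ≤ α) (hαβ : α ≤ β)
    (h : (√β - √α) ^ 2 < 1 + 1 / (8 * ((n : ℝ) + 3))) :
    ∃ c : ℝ, 0 < c ∧ ∃ N₀ : ℕ, ∀ A X : Set ℕ, (∀ j, cp (ind A) (n + 3) j ≤ C) →
      (∀ j, j ∉ X → j ∉ dset A (n + 1) →
        α ≤ cp (ind A) (n + 3) j ∧ cp (ind A) (n + 3) j ≤ β) →
      ∀ N : ℕ, N₀ ≤ N → c * N ≤ ({j | j < N ∧ j ∈ X}.ncard : ℝ) := by
  have hα0 : 0 ≤ α := by
    have : (0 : ℝ) ≤ n := by positivity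
    linarith
  have hβ0 : 0 ≤ β := hα0.trans hαβ
  obtain ⟨lam, hlam, δ, hδ, hpoly⟩ := hPo (n + 3) α β (by omega) (by push_cast; exact hα) hαβ
    (by push_cast; exact h)
  have hpoly' : ∀ m : ℝ, 0 ≤ m →
      δ ≤ 2 * (m ^ (n + 3)) ^ 2 - (α + β) * m ^ (n + 3) + α * β / 2 +
        (n + 3) * lam ^ (n + 2) * m - (n + 2 - 1 / (8 * (n + 3))) * lam ^ (n + 3) := by
    intro m hm
    have h1 := hpoly m hm
    have h2 : n + 3 - 1 = n + 2 := by omega
    rw [h2] at h1
    push_cast at h1
    have h3 : ((n : ℝ) + 3 - 1 - 1 / (8 * (n + 3))) = n + 2 - 1 / (8 * (n + 3)) := by ring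
    rw [h3] at h1
    exact h1
  obtain ⟨T, hT, ε, hε, hwin'⟩ := no_window hP hα0 hβ0 hC1 hlam hδ hpoly'
  set k : ℝ := 1 / ((n + 3 : ℕ) : ℝ) with hk
  have hk0 : 0 < k := by positivity
  have hh0 : n + 3 ≠ 0 := by omega
  have hC0 : 0 ≤ C := by linarith
  set C2 := (C + α) * (C + β) with hC2
  have hC20 : 0 < C2 := by
    have h1 : 0 < C + α := by linarith
    have h2 : 0 < C + β := by linarith
    positivity
  -- choice of the parameters
  set W := 9 * C2 / ε + 1 with hW
  have hW0 : 1 ≤ W := by rw [hW]; have : 0 ≤ 9 * C2 / ε := by positivity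
                         linarith
  set c := ε / (4 * C2 * W * exp T) with hc
  have hc0 : 0 < c := by positivity
  -- large `N`
  have hlim : Tendsto (fun N : ℕ => C2 * (pw k (W * exp T / N) * (10 * C) ^ (n + 2))) atTop
      (nhds 0) := by
    have h1 : Tendsto (fun N : ℕ => W * exp T / (N : ℝ)) atTop (nhds 0) :=
      tendsto_const_div_atTop_nhds_zero_nat _
    have hcont : Continuous (pw k) := by
      unfold pw
      exact Real.continuous_rpow_const hk0.le
    have h2 := (hcont.tendsto 0).comp h1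
    have h00 : pw k 0 = 0 := by unfold pw; exact Real.zero_rpow hk0.ne'
    rw [h00] at h2
    have h3 := (h2.mul_const ((10 * C) ^ (n + 2))).const_mul C2
    simpa using h3
  have hev := hlim.eventually (gt_mem_nhds (show (0 : ℝ) < ε / 4 by positivity))
  obtain ⟨N0, hN0⟩ := exists_nat_ge (W * exp T)
  obtain ⟨N1, hN1'⟩ := eventually_atTop.mp hev
  refine ⟨c, hc0, max N1 (N0 + 1), fun A X hC hX N hNN => ?_⟩
  have hN1 := hN1' N ((le_max_left _ _).trans hNN)
  have hN2 : N0 + 1 ≤ N := (le_max_right _ _).trans hNN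
  have ha := ind_zero_or_one A
  obtain ⟨hR0, _, _, _⟩ := hP.pow (ind A) ha (n + 3)
  have hwin := hwin' (ind A) ha hC
  -- pointwise bound for `Ex`
  have hEx : ∀ j, Ex (cp (ind A) (n + 3)) α β j ≤ C2 * ind X j + C2 * ind (dset A (n + 1)) j := by
    intro j
    have h0 := Ex_le hR0 hC hα0 hβ0 j
    by_cases h1 : j ∈ X
    · have e : ind X j = 1 := if_pos h1
      have := ind_nonneg (dset A (n + 1)) j
      rw [e]; nlinarith
    · by_cases h2 : j ∈ dset A (n + 1)
      · have e : ind (dset A (n + 1)) j = 1 := if_pos h2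
        have := ind_nonneg X j
        rw [e]; nlinarith
      · obtain ⟨h3, h4⟩ := hX j h1 h2
        have h5 := ind_nonneg X j
        have h6 := ind_nonneg (dset A (n + 1)) j
        have : Ex (cp (ind A) (n + 3)) α β j = 0 := by
          unfold Ex
          apply max_eq_left
          nlinarith
        rw [this]; positivity
  -- bound for `Bt`
  have hBt : ∀ (N : ℕ) (τ : ℝ), 0 ≤ τ → Bt (cp (ind A) (n + 3)) α β τ ≤
      C2 * (exp (-τ) * ({j | j < N ∧ j ∈ X}.ncard : ℝ) + 3 / 2 * exp (-(2 * exp (-τ) * N)) +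
        pw k (exp (-τ)) * (10 * C) ^ (n + 2)) := by
    intro N τ hτ
    set y := exp (-τ) with hy
    have hy0 : 0 < y := exp_pos _
    have hy1 : y ≤ 1 := by rw [hy, Real.exp_le_one_iff]; linarith
    have h2y : 0 < 2 * y := by positivity
    have s1 := (summable_a (ind_zero_or_one X) h2y).mul_left C2
    have s2 := (summable_a (ind_zero_or_one (dset A (n + 1))) h2y).mul_left C2
    have h1 : ∑' j : ℕ, Ex (cp (ind A) (n + 3)) α β j * exp (-(2 * y * j)) ≤
        C2 * (∑' j : ℕ, ind X j * exp (-(2 * y * j))) +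
          C2 * ∑' j : ℕ, ind (dset A (n + 1)) j * exp (-(2 * y * j)) := by
      rw [← tsum_mul_left, ← tsum_mul_left, ← s1.tsum_add s2]
      refine (summable_Ex hR0 hC hα0 hβ0 h2y).tsum_le_tsum (fun j => ?_)
        (s1.add s2)
      have h2 := exp_pos (-(2 * y * j))
      have h3 := hEx j
      nlinarith
    have h2 := tsum_ind_le X N h2y
    have h3 : ∑' j : ℕ, ind (dset A (n + 1)) j * exp (-(2 * y * j)) ≤
        Fr (ind A) (2 * y) ^ (n + 2) := hDs A (n + 1) (2 * y) h2y
    have h4 := pw_mul_Fr_le ha hP.pow hC hh0 hC1 hy0 (by linarith)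
    have h5 : y * Fr (ind A) (2 * y) ^ (n + 2) ≤ pw k y * (10 * C) ^ (n + 2) := by
      have e : y = pw k y ^ (n + 3) := (pw_pow hh0 hy0.le).symm
      have h7 := pw_pos (k := k) hy0
      have h8 := Fr_nonneg ha (2 * y)
      calc y * Fr (ind A) (2 * y) ^ (n + 2) =
            pw k y ^ (n + 3) * Fr (ind A) (2 * y) ^ (n + 2) := by rw [← e]
        _ = pw k y * (pw k y * Fr (ind A) (2 * y)) ^ (n + 2) := by ring
        _ ≤ pw k y * (10 * C) ^ (n + 2) := by gcongr
    unfold Bt
    rw [← hy]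
    calc y * ∑' j : ℕ, Ex (cp (ind A) (n + 3)) α β j * exp (-(2 * y * j))
        ≤ y * (C2 * (({j | j < N ∧ j ∈ X}.ncard : ℝ) +
            exp (-(2 * y * N)) * ((1 + 2 * y) / (2 * y))) +
              C2 * Fr (ind A) (2 * y) ^ (n + 2)) := by
          gcongr
          refine h1.trans ?_
          gcongr
      _ = C2 * (y * ({j | j < N ∧ j ∈ X}.ncard : ℝ) +
            exp (-(2 * y * N)) * ((1 + 2 * y) / 2) + y * Fr (ind A) (2 * y) ^ (n + 2)) := by
          field_simp
      _ ≤ C2 * (y * ({j | j < N ∧ j ∈ X}.ncard : ℝ) +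
            exp (-(2 * y * N)) * (3 / 2) + pw k y * (10 * C) ^ (n + 2)) := by
          gcongr
          linarith
      _ = _ := by ring
  by_contra hcon
  push Not at hcon
  have hN : W * exp T < N := by
    have : (N0 : ℝ) + 1 ≤ N := by exact_mod_cast hN2
    linarith
  have hNpos : (0 : ℝ) < N := lt_trans (by positivity) hN
  -- the window
  have hu : 0 ≤ log (N / W) - T := by
    have h1 : exp T ≤ N / W := by
      rw [le_div_iff₀ (by linarith)]; nlinarith
    have h2 := Real.log_le_log (exp_pos T) h1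
    rw [Real.log_exp] at h2
    linarith
  obtain ⟨τ, hτ, hτB⟩ := hwin _ hu
  have hτ0 : 0 ≤ τ := hu.trans hτ.1
  have hy2 : W / N ≤ exp (-τ) := by
    have h1 : τ ≤ log (N / W) := by linarith [hτ.2]
    have h2 : exp τ ≤ N / W := by
      calc exp τ ≤ exp (log (N / W)) := by gcongr
        _ = N / W := Real.exp_log (by positivity)
    rw [Real.exp_neg, le_inv_comm₀ (by positivity) (exp_pos _), inv_div]
    exact h2
  have hy3 : exp (-τ) ≤ W * exp T / N := by
    have h1 : log (N / W) - T ≤ τ := hτ.1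
    have h2 : exp (log (N / W) - T) ≤ exp τ := by gcongr
    rw [Real.exp_sub, Real.exp_log (by positivity)] at h2
    rw [Real.exp_neg, inv_le_comm₀ (exp_pos _) (by positivity), inv_div]
    refine le_trans (le_of_eq ?_) h2
    field_simp
  have hB := hBt N τ hτ0
  have p1 : C2 * (exp (-τ) * ({j | j < N ∧ j ∈ X}.ncard : ℝ)) ≤ ε / 4 := by
    calc C2 * (exp (-τ) * ({j | j < N ∧ j ∈ X}.ncard : ℝ)) ≤
        C2 * ((W * exp T / N) * (c * N)) := by gcongr
      _ = ε / 4 := by
        rw [hc]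
        have : W ≠ 0 := by linarith
        field_simp
  have p2 : C2 * (3 / 2 * exp (-(2 * exp (-τ) * N))) ≤ ε / 4 := by
    have h1 : 2 * W ≤ 2 * exp (-τ) * N := by
      have := mul_le_mul_of_nonneg_right hy2 hNpos.le
      rw [div_mul_cancel₀ _ hNpos.ne'] at this
      linarith
    have h2 : exp (-(2 * exp (-τ) * N)) ≤ exp (-(2 * W)) := by gcongr
    have h3 : exp (-(2 * W)) ≤ 1 / (2 * W) := by
      rw [Real.exp_neg, ← one_div]
      apply one_div_le_one_div_of_le (by positivity)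
      linarith [Real.add_one_le_exp (2 * W)]
    have h4 : 9 * C2 / ε ≤ W := by rw [hW]; linarith
    rw [div_le_iff₀ hε] at h4
    calc C2 * (3 / 2 * exp (-(2 * exp (-τ) * N))) ≤ C2 * (3 / 2 * (1 / (2 * W))) := by
          gcongr; exact h2.trans h3
      _ = 3 / 4 * C2 / W := by field_simp; ring
      _ ≤ ε / 4 := by
          rw [div_le_iff₀ (by linarith)]
          nlinarith
  have p3 : C2 * (pw k (exp (-τ)) * (10 * C) ^ (n + 2)) ≤ ε / 4 := by
    have h1 : pw k (exp (-τ)) ≤ pw k (W * exp T / N) := by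
      unfold pw
      exact Real.rpow_le_rpow (exp_pos _).le hy3 hk0.le
    calc C2 * (pw k (exp (-τ)) * (10 * C) ^ (n + 2)) ≤
        C2 * (pw k (W * exp T / N) * (10 * C) ^ (n + 2)) := by gcongr
      _ ≤ ε / 4 := hN1.le
  nlinarith

end Pool.Agent.Helper65.EH
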