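import Pool.Agent.Helper65.EH.Norms

set_option autoImplicit false

open MeasureTheory Metric Real Set

namespace Pool.Agent.Helper65.EH

open Pool.Agent.Helper65.ET (pt pt_re Dir Adm dc Fr adm_a a_sq a_nonneg dc_mul Dir_mul Dir_add
  integral_norm_Dir summable_a norm_F_le norm_F1_le Fr_anti Fr_nonneg per_Dir)

/-- all the analytic parts -/
structure Parts : Prop where
  cert : S_CERT
  circ : S_CIRC
  flux : S_FLUX
  pow : S_POW

variable {a : ℕ → ℝ} (ha : ∀ n, a n = 0 ∨ a n = 1) {n : ℕ} {C : ℝ} (hP : Parts)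
  (hC : ∀ j, cp a (n + 3) j ≤ C) (hC1 : 1 ≤ C)

include ha hP hC hC1

set_option maxHeartbeats 1000000 in
/-- the inequality at height `y = z ^ 8` -/
lemma key_z {α β lam δ z : ℝ} (hα : 0 ≤ α) (hβ : 0 ≤ β) (hlam : 0 < lam)
    (hpoly : ∀ m : ℝ, 0 ≤ m →
      δ ≤ 2 * (m ^ (n + 3)) ^ 2 - (α + β) * m ^ (n + 3) + α * β / 2 +
        (n + 3) * lam ^ (n + 2) * m - (n + 2 - 1 / (8 * (n + 3))) * lam ^ (n + 3))
    (hz : 0 < z) (hz1 : z ≤ 1) :
    2 * π * δ ≤ lam ^ (n + 3) * defect (1 / (n + 3 : ℕ)) (Dir (fun n => (√lam)⁻¹ * a n))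
        (Dir (dc (fun n => (√lam)⁻¹ * a n))) (z ^ 8) +
      2 * π * (z ^ 8 * ∑' j : ℕ, Ex (cp a (n + 3)) α β j * exp (-(2 * z ^ 8 * j))) +
      (121 * C ^ 2 + 128 * (n + 16) * C * lam ^ (n + 2)) * z := by
  have hpi := Real.pi_gt_three
  have hpi4 := Real.pi_lt_d2
  have hC0 : 0 ≤ C := by linarith
  have hh3 : 3 ≤ n + 3 := by omega
  have hh0 : n + 3 ≠ 0 := by omega
  obtain ⟨hR0, _, hFp, hDp⟩ := hP.pow a ha (n + 3)
  set κ := (√lam)⁻¹ with hκ
  have hκ0 : 0 < κ := by positivity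
  have hκ2 : κ ^ 2 = 1 / lam := by
    rw [hκ, inv_pow, Real.sq_sqrt hlam.le, one_div]
  set y := z ^ 8 with hy
  have hy0 : 0 < y := by positivity
  have hy1 : y ≤ 1 := pow_le_one₀ hz.le hz1
  have hd1 : z ^ 6 ≤ 1 := pow_le_one₀ hz.le hz1
  have hsy : √y = z ^ 4 := by
    rw [hy, show z ^ 8 = (z ^ 4) ^ 2 by ring, Real.sqrt_sq (by positivity)]
  set k : ℝ := 1 / ((n + 3 : ℕ) : ℝ) with hk
  have hk0 : 0 < k := by positivity
  have hk3 : k ≤ 1 / 3 := by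
    rw [hk]; apply one_div_le_one_div_of_le (by norm_num)
    exact_mod_cast hh3
  have hk8 : k / 8 = 1 / (8 * ((n : ℝ) + 3)) := by
    rw [hk]; push_cast; field_simp
  set m := pw k y * Fr a (2 * y) with hm
  have hm0 : 0 ≤ m := mul_nonneg (pw_nonneg hy0.le) (Fr_nonneg ha _)
  have hmpow : m ^ (n + 3) = y * ∑' j : ℕ, cp a (n + 3) j * exp (-(2 * y * j)) := by
    rw [hm, mul_pow, hk, pw_pow hh0 hy0.le, hFp _ (by positivity)]
  have hMC : m ^ (n + 3) ≤ 3 / 2 * C := by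
    have h1 := pw_mul_Fr_pow ha hP.pow hC hh0 hy0.le (show 0 < 2 * y by positivity)
    rw [hm]
    refine h1.trans ?_
    have h2 : y * (C * ((1 + 2 * y) / (2 * y))) = C * ((1 + 2 * y) / 2) := by field_simp
    rw [h2]; nlinarith
  have h1 := local_ineq hP.cert hP.circ hk0 hk3 n (per_Dir ((adm_a ha).mul κ)) hy0
    (show 0 ≤ z ^ 6 by positivity)
    (by linarith) (fun x => vv_add_qq_le ha hP.pow hC hh3 hC1 κ hκ0.le x hy0 hy1)
  rw [int_vv ha k κ hy0, hsy] at h1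
  have h2 : ∫ x in (z ^ 6)..2 * π - z ^ 6, vv k (Dir (fun n => κ * a n)) x y ^ (n + 3) =
      (κ ^ 2) ^ (n + 3) *
        (y * ∫ x in (z ^ 6)..2 * π - z ^ 6, ‖Dir (cp a (n + 3)) (pt x y)‖ ^ 2) := by
    rw [← mul_assoc, ← intervalIntegral.integral_const_mul]
    apply intervalIntegral.integral_congr
    intro x _
    simp only
    rw [vv_eq_norm, Dir_mul, ← hDp _ (by rw [pt_re]; exact hy0), norm_mul, norm_pow,
      Complex.norm_real, Real.norm_of_nonneg hκ0.le, mul_pow, hk, pw_pow hh0 hy0.le]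
    ring
  have hc3 : 2 * m ^ (n + 3) ≤ 3 * C := by linarith
  have h3 := upper1 hR0 hC hz hz1 (c := 2 * m ^ (n + 3)) (by positivity) hc3
  have h4 := upper2 hR0 hC hα hβ hy0 (show 0 ≤ m ^ (n + 3) by positivity) hMC hmpow.symm
  rw [← hy] at h3
  rw [h2] at h1
  have h5 := hpoly m hm0
  -- combine
  set E := y * ∑' j : ℕ, Ex (cp a (n + 3)) α β j * exp (-(2 * y * j)) with hE
  set I := y * ∫ x in (z ^ 6)..2 * π - z ^ 6, ‖Dir (cp a (n + 3)) (pt x y)‖ ^ 2 with hI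
  set Df := defect k (Dir (fun n => κ * a n)) (Dir (dc (fun n => κ * a n))) y with hDf
  set M := m ^ (n + 3) with hM
  have h6 : I ≤ 2 * π * ((α + β) * M - α * β / 2 - 2 * M ^ 2 + E + 9 * C ^ 2 * y) +
      64 * C ^ 2 * z := by
    refine h3.trans ?_
    gcongr
  have hk4 : (κ ^ 2) ^ (n + 3) * lam ^ (n + 3) = 1 := by
    rw [hκ2, ← mul_pow, one_div_mul_cancel hlam.ne', one_pow]
  have h7 := mul_le_mul_of_nonneg_left h1 (show 0 ≤ lam ^ (n + 3) by positivity)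
  have e7 : lam ^ (n + 3) * ((κ ^ 2) ^ (n + 3) * I) = I := by
    rw [← mul_assoc, mul_comm (lam ^ (n + 3)), hk4, one_mul]
  rw [e7] at h7
  have e8 : lam ^ (n + 3) * ((n + 3) * (pw k y * (2 * π * (κ ^ 2 * Fr a (2 * y)))) -
      (n + 2 - k / 8) * (2 * π) - Df -
      2 * (n + 16) * z ^ 6 * (64 * C * κ ^ 2 / z ^ 4)) =
      2 * π * ((n + 3) * lam ^ (n + 2) * m) - 2 * π * ((n + 2 - k / 8) * lam ^ (n + 3)) -
        lam ^ (n + 3) * Df - 128 * (n + 16) * C * lam ^ (n + 2) * z ^ 2 := by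
    rw [hm, hκ2, pow_succ lam (n + 2)]
    field_simp
    ring
  rw [e8, hk8] at h7
  have hzy : y ≤ z := by
    rw [hy]
    calc z ^ 8 ≤ z ^ 1 := pow_le_pow_of_le_one hz.le hz1 (by norm_num)
      _ = z := pow_one z
  have hz2 : z ^ 2 ≤ z := by nlinarith
  have h8 : 2 * π * (9 * C ^ 2 * y) ≤ 57 * C ^ 2 * z := by
    have h9 : C ^ 2 * y ≤ C ^ 2 * z := by gcongr
    have h10 : 0 ≤ C ^ 2 * y := by positivity
    have h11 : 2 * π * 9 ≤ 57 := by linarith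
    calc 2 * π * (9 * C ^ 2 * y) = (2 * π * 9) * (C ^ 2 * y) := by ring
      _ ≤ 57 * (C ^ 2 * z) := by gcongr
      _ = _ := by ring
  have h12 : 128 * (n + 16) * C * lam ^ (n + 2) * z ^ 2 ≤
      128 * (n + 16) * C * lam ^ (n + 2) * z := by gcongr
  have h13 := mul_le_mul_of_nonneg_left h5 (show 0 ≤ 2 * π by positivity)
  clear_value E I Df m
  linarith

end Pool.Agent.Helper65.EH
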