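import Pool.Agent.Helper65.EH.Up

set_option autoImplicit false

open MeasureTheory Metric Real Set

/-!
# Bounds for `v` and `q`, weight `k = 1 / h`
-/

namespace Pool.Agent.Helper65.EH

open Pool.Agent.Helper65.ET (pt pt_re Dir Adm dc Fr adm_a a_sq a_nonneg dc_mul Dir_mul Dir_add
  integral_norm_Dir summable_a norm_F_le norm_F1_le Fr_anti Fr_nonneg)

lemma vv_eq_norm {k : ℝ} {F : ℂ → ℂ} (x y : ℝ) : vv k F x y = pw k y * ‖F (pt x y)‖ ^ 2 := by
  unfold vv; rw [Complex.sq_norm, Complex.normSq_apply]; ring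

lemma qq_eq_norm {k : ℝ} {F F1 : ℂ → ℂ} (x y : ℝ) :
    qq k F F1 x y = pw k y * ‖2 * y * F1 (pt x y) + k * F (pt x y)‖ ^ 2 := by
  have e1 : (2 * (y : ℂ) * F1 (pt x y) + k * F (pt x y)).re =
      2 * y * (F1 (pt x y)).re + k * (F (pt x y)).re := by simp
  have e2 : (2 * (y : ℂ) * F1 (pt x y) + k * F (pt x y)).im =
      2 * y * (F1 (pt x y)).im + k * (F (pt x y)).im := by simp
  unfold qq
  rw [Complex.sq_norm, Complex.normSq_apply, e1, e2]
  ring

lemma pw_pow {h : ℕ} (hh : h ≠ 0) {y : ℝ} (hy : 0 ≤ y) : pw (1 / h) y ^ h = y := by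
  unfold pw
  rw [one_div]
  exact Real.rpow_inv_natCast_pow hy hh

section

variable {a : ℕ → ℝ} (ha : ∀ n, a n = 0 ∨ a n = 1)

include ha

lemma int_vv (k c : ℝ) {y : ℝ} (hy : 0 < y) :
    ∫ x in (0 : ℝ)..2 * π, vv k (Dir (fun n => c * a n)) x y =
      pw k y * (2 * π * (c ^ 2 * Fr a (2 * y))) := by
  simp_rw [vv_eq_norm]
  rw [intervalIntegral.integral_const_mul, integral_norm_Dir ((adm_a ha).mul c) hy]
  congr 2
  unfold Fr
  rw [← tsum_mul_left]
  refine tsum_congr fun n => ?_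
  rw [mul_pow, a_sq ha, mul_assoc, mul_assoc]

lemma a1_eq (k c : ℝ) (x : ℝ) {y : ℝ} (hy : 0 < y) :
    2 * (y : ℂ) * Dir (dc (fun n => c * a n)) (pt x y) + k * Dir (fun n => c * a n) (pt x y) =
      Dir (fun n => 2 * y * dc (fun n => c * a n) n + k * (c * a n)) (pt x y) := by
  have hs : 0 < (pt x y).re := by rw [pt_re]; exact hy
  rw [Dir_add (((adm_a ha).mul c).dc.mul (2 * y)) (((adm_a ha).mul c).mul k) hs,
    Dir_mul (2 * y) (dc fun n => c * a n), Dir_mul k (fun n => c * a n)]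
  push_cast
  ring

lemma coef_le {k : ℝ} (hk : 0 ≤ k) (hk1 : k ≤ 1 / 3) (c : ℝ) {y : ℝ} (hy : 0 < y) (n : ℕ) :
    (2 * y * dc (fun n => c * a n) n + k * (c * a n)) ^ 2 * exp (-(2 * y * n)) ≤
      8 * c ^ 2 * (a n * exp (-(y * n))) := by
  have h1 : (2 * y * dc (fun n => c * a n) n + k * (c * a n)) ^ 2 =
      c ^ 2 * a n * (k - 2 * (y * n)) ^ 2 := by
    rw [dc_mul]
    unfold dc
    have := a_sq ha n
    calc _ = c ^ 2 * a n ^ 2 * (k - 2 * (y * n)) ^ 2 := by ring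
      _ = _ := by rw [this]
  rw [h1]
  have h2 : exp (-(2 * y * n)) = exp (-(y * n)) * exp (-(y * n)) := by
    rw [← Real.exp_add]; congr 1; ring
  set u := y * (n : ℝ) with hu
  have hu0 : 0 ≤ u := by positivity
  have h3 : (k - 2 * u) ^ 2 * exp (-u) ≤ 8 := by
    rw [Real.exp_neg, ← div_eq_mul_inv, div_le_iff₀ (exp_pos _)]
    have := Real.quadratic_le_exp_of_nonneg hu0
    nlinarith [mul_nonneg hk hu0]
  rw [h2]
  have h4 := a_nonneg ha n
  calc c ^ 2 * a n * (k - 2 * u) ^ 2 * (exp (-u) * exp (-u))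
      = c ^ 2 * (a n * exp (-u)) * ((k - 2 * u) ^ 2 * exp (-u)) := by ring
    _ ≤ c ^ 2 * (a n * exp (-u)) * 8 := by gcongr
    _ = _ := by ring

lemma int_qq_le {k : ℝ} (hk : 0 ≤ k) (hk1 : k ≤ 1 / 3) (c : ℝ) {y : ℝ} (hy : 0 < y) :
    ∫ x in (0 : ℝ)..2 * π, qq k (Dir (fun n => c * a n)) (Dir (dc (fun n => c * a n))) x y ≤
      pw k y * (2 * π * (8 * c ^ 2 * Fr a y)) := by
  simp_rw [qq_eq_norm, a1_eq ha k c _ hy]
  rw [intervalIntegral.integral_const_mul, integral_norm_Dir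
    ((((adm_a ha).mul c).dc.mul (2 * y)).add (((adm_a ha).mul c).mul k)) hy]
  have h1 : ∑' n : ℕ, (2 * y * dc (fun n => c * a n) n + k * (c * a n)) ^ 2 *
      exp (-(2 * y * n)) ≤ 8 * c ^ 2 * Fr a y := by
    unfold Fr
    rw [← tsum_mul_left]
    have hs := (summable_a ha hy).mul_left (8 * c ^ 2)
    exact (Summable.of_nonneg_of_le (fun n => by positivity) (coef_le ha hk hk1 c hy)
      hs).tsum_le_tsum (coef_le ha hk hk1 c hy) hs
  have h2 := pw_pos (k := k) hy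
  gcongr

variable {h : ℕ} {C : ℝ} (hPw : S_POW) (hC : ∀ n, cp a h n ≤ C)

include hPw hC

lemma Fr_pow_le {t : ℝ} (ht : 0 < t) : Fr a t ^ h ≤ C * ((1 + t) / t) := by
  obtain ⟨h1, _, h3, _⟩ := hPw a ha h
  rw [h3 t ht]
  exact tsum_R_le h1 hC ht

lemma C0 : 0 ≤ C := ((hPw a ha h).1 0).trans (hC 0)

lemma pw_mul_Fr_pow (hh : h ≠ 0) {y t : ℝ} (hy : 0 ≤ y) (ht : 0 < t) :
    (pw (1 / h) y * Fr a t) ^ h ≤ y * (C * ((1 + t) / t)) := by
  rw [mul_pow, pw_pow hh hy]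
  have := Fr_pow_le ha hPw hC ht
  gcongr

lemma pw_mul_Fr_le (hh : h ≠ 0) (hC1 : 1 ≤ C) {y : ℝ} (hy : 0 < y) (hy9 : y ≤ 9) :
    pw (1 / h) y * Fr a (2 * y) ≤ 10 * C := by
  have h1 := pw_mul_Fr_pow ha hPw hC hh hy.le (show 0 < 2 * y by positivity)
  have h2 : y * (C * ((1 + 2 * y) / (2 * y))) = C * ((1 + 2 * y) / 2) := by field_simp
  rw [h2] at h1
  have h3 : C * ((1 + 2 * y) / 2) ≤ 10 * C := by nlinarith
  have h4 : 10 * C ≤ (10 * C) ^ h := le_self_pow₀ (by linarith) hh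
  exact le_of_pow_le_pow_left₀ hh (by positivity) (h1.trans (h3.trans h4))

/-- pointwise bound -/
lemma vv_add_qq_le (hh : 3 ≤ h) (hC1 : 1 ≤ C) (c : ℝ) (hc : 0 ≤ c) (x : ℝ) {y : ℝ} (hy : 0 < y)
    (hy1 : y ≤ 1) :
    vv (1 / h) (Dir (fun n => c * a n)) x y +
      qq (1 / h) (Dir (fun n => c * a n)) (Dir (dc (fun n => c * a n))) x y
      ≤ 64 * C * c ^ 2 / √y := by
  have hh0 : h ≠ 0 := by omega
  have hhr : (3 : ℝ) ≤ h := by exact_mod_cast hh
  have hF := norm_F_le ha c hc x hy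
  have hF1 := norm_F1_le ha c hc x hy
  have hmono : Fr a y ≤ Fr a (y / 2) := Fr_anti ha (by positivity) (by linarith)
  have hF0 : 0 ≤ Fr a (y / 2) := Fr_nonneg ha _
  have hk0 : (0 : ℝ) ≤ 1 / h := by positivity
  have hk1 : (1 / h : ℝ) ≤ 1 / 3 := one_div_le_one_div_of_le (by norm_num) hhr
  have hp := pw_pos (k := 1 / h) hy
  have hsy : 0 < √y := by positivity
  have hy' : √y ^ 2 = y := Real.sq_sqrt hy.le
  have hsy1 : √y ≤ 1 := by rw [Real.sqrt_le_one]; exact hy1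
  have hff0 := Fr_pow_le ha hPw hC (show 0 < y / 2 by positivity)
  set f := Fr a (y / 2) with hf
  have hff : f ^ h ≤ 3 * C / y := by
    refine hff0.trans ?_
    have e : C * ((1 + y / 2) / (y / 2)) = C * (2 + y) / y := by field_simp
    have e2 : C * (2 + y) ≤ 3 * C := by nlinarith
    rw [e]
    exact div_le_div_of_nonneg_right e2 hy.le
  have hmain : pw (1 / h) y * f ^ 2 ≤ 3 * C / √y := by
    have h1 : (pw (1 / h) y * f ^ 2) ^ h ≤ (3 * C / √y) ^ 2 := by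
      rw [mul_pow, pw_pow hh0 hy.le]
      calc y * (f ^ 2) ^ h = y * (f ^ h) ^ 2 := by ring
        _ ≤ y * (3 * C / y) ^ 2 := by gcongr
        _ = (3 * C / √y) ^ 2 := by
          rw [div_pow, div_pow, hy']; field_simp
    have h2 : 1 ≤ 3 * C / √y := by
      rw [le_div_iff₀ hsy]; nlinarith
    have h3 : (3 * C / √y) ^ 2 ≤ (3 * C / √y) ^ h := pow_le_pow_right₀ h2 (by omega)
    exact le_of_pow_le_pow_left₀ hh0 (by positivity) (h1.trans h3)
  have hv : vv (1 / h) (Dir (fun n => c * a n)) x y ≤ pw (1 / h) y * (c * f) ^ 2 := by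
    rw [vv_eq_norm]
    have : c * Fr a y ≤ c * f := by gcongr
    gcongr
    exact hF.trans this
  have hq : qq (1 / h) (Dir (fun n => c * a n)) (Dir (dc (fun n => c * a n))) x y ≤
      pw (1 / h) y * (9 / 2 * (c * f)) ^ 2 := by
    rw [qq_eq_norm]
    have h1 : ‖2 * (y : ℂ) * Dir (dc (fun n => c * a n)) (pt x y) +
        ((1 / h : ℝ) : ℂ) * Dir (fun n => c * a n) (pt x y)‖ ≤ 9 / 2 * (c * f) := by
      refine (norm_add_le _ _).trans ?_
      rw [norm_mul, norm_mul, norm_mul, Complex.norm_real, Real.norm_of_nonneg hy.le,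
        Complex.norm_real, Real.norm_of_nonneg hk0]
      simp only [Complex.norm_ofNat]
      have h2 : 2 * y * ‖Dir (dc (fun n => c * a n)) (pt x y)‖ ≤
          2 * y * (c * (2 / y * f)) := by gcongr
      have h3 : 2 * y * (c * (2 / y * f)) = 4 * (c * f) := by field_simp; ring
      have h4 : c * Fr a y ≤ c * f := by gcongr
      have h5 : (1 / h : ℝ) * ‖Dir (fun n => c * a n) (pt x y)‖ ≤ 1 / 3 * (c * f) :=
        mul_le_mul hk1 (hF.trans h4) (norm_nonneg _) (by norm_num)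
      have h6 : 0 ≤ c * f := by positivity
      linarith
    gcongr
  calc _ ≤ pw (1 / h) y * (c * f) ^ 2 + pw (1 / h) y * (9 / 2 * (c * f)) ^ 2 := add_le_add hv hq
    _ = (85 / 4 * c ^ 2) * (pw (1 / h) y * f ^ 2) := by ring
    _ ≤ (85 / 4 * c ^ 2) * (3 * C / √y) := by gcongr
    _ = 255 / 4 * C * c ^ 2 / √y := by ring
    _ ≤ 64 * C * c ^ 2 / √y := by
      gcongr
      norm_num

end

end Pool.Agent.Helper65.EH
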