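import Pool.Agent.Helper65.EH.Ana

set_option autoImplicit false

open MeasureTheory Metric Real Set

/-!
# Bounds for bounded sequences `R`
-/

namespace Pool.Agent.Helper65.EH

open Pool.Agent.Helper65.ET (pt pt_re Dir Adm dc summable_exp tsum_exp_le le_tsum_exp adm_const
  cont_Dir Dir_add norm_sq_le integral_norm_Dir integral_Gc_le tsum_sub_sq)

/-- `E_n = ((R(n) - α) (R(n) - β))₊` -/
noncomputable def Ex (R : ℕ → ℝ) (α β : ℝ) (n : ℕ) : ℝ :=
  max 0 ((R n - α) * (R n - β))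

section

variable {R : ℕ → ℝ} {C : ℝ} (hR0 : ∀ n, 0 ≤ R n) (hC : ∀ n, R n ≤ C)

include hR0 hC

lemma C_nonneg : 0 ≤ C := (hR0 0).trans (hC 0)

lemma adm_R : Adm R := by
  intro ε hε
  refine Summable.of_nonneg_of_le (fun n => by positivity) (fun n => ?_)
    ((summable_exp hε).mul_left C)
  rw [abs_of_nonneg (hR0 n)]
  have := hC n
  gcongr

lemma summable_R {t : ℝ} (ht : 0 < t) : Summable (fun n : ℕ => R n * exp (-(t * n))) := by
  refine (adm_R hR0 hC t ht).congr fun n => ?_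
  rw [abs_of_nonneg (hR0 n)]

lemma summable_R_sq {t : ℝ} (ht : 0 < t) :
    Summable (fun n : ℕ => R n ^ 2 * exp (-(t * n))) := by
  refine Summable.of_nonneg_of_le (fun n => by positivity) (fun n => ?_)
    ((summable_exp ht).mul_left (C ^ 2))
  have := hC n
  have h2 := hR0 n
  gcongr

lemma tsum_R_le {t : ℝ} (ht : 0 < t) :
    ∑' n : ℕ, R n * exp (-(t * n)) ≤ C * ((1 + t) / t) := by
  calc ∑' n : ℕ, R n * exp (-(t * n)) ≤ ∑' n : ℕ, C * exp (-(t * n)) := by
        refine (summable_R hR0 hC ht).tsum_le_tsum (fun n => ?_) ((summable_exp ht).mul_left C)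
        have := hC n
        gcongr
    _ = C * ∑' n : ℕ, exp (-(t * n)) := tsum_mul_left
    _ ≤ C * ((1 + t) / t) := by
        have := C_nonneg hR0 hC
        have h2 := tsum_exp_le ht
        gcongr

lemma tsum_R_sq_le {y : ℝ} (hy : 0 < y) (hy1 : y ≤ 1) :
    y * ∑' n : ℕ, R n ^ 2 * exp (-(2 * y * n)) ≤ 3 / 2 * C ^ 2 := by
  have hC0 := C_nonneg hR0 hC
  have h1 : ∑' n : ℕ, R n ^ 2 * exp (-(2 * y * n)) ≤ C ^ 2 * ((1 + 2 * y) / (2 * y)) := by
    calc _ ≤ ∑' n : ℕ, C ^ 2 * exp (-(2 * y * n)) := by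
          refine (summable_R_sq hR0 hC (by positivity)).tsum_le_tsum (fun n => ?_)
            ((summable_exp (by positivity)).mul_left _)
          have := hC n
          have h2 := hR0 n
          gcongr
      _ = C ^ 2 * ∑' n : ℕ, exp (-(2 * y * n)) := tsum_mul_left
      _ ≤ _ := by
          have := tsum_exp_le (show 0 < 2 * y by positivity)
          gcongr
  calc y * ∑' n : ℕ, R n ^ 2 * exp (-(2 * y * n)) ≤
      y * (C ^ 2 * ((1 + 2 * y) / (2 * y))) := by gcongr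
    _ = C ^ 2 * ((1 + 2 * y) / 2) := by field_simp
    _ ≤ C ^ 2 * (3 / 2) := by gcongr; linarith
    _ = _ := by ring

lemma upper1 {z c : ℝ} (hz : 0 < z) (hz1 : z ≤ 1) (hc : 0 ≤ c) (hc3 : c ≤ 3 * C) :
    z ^ 8 * ∫ x in (z ^ 6)..2 * π - z ^ 6, ‖Dir R (pt x (z ^ 8))‖ ^ 2 ≤
      2 * π * (z ^ 8 * ∑' n : ℕ, (R n - c) ^ 2 * exp (-(2 * z ^ 8 * n))) + 64 * C ^ 2 * z := by
  have hpi := Real.pi_gt_three
  have hpi4 := Real.pi_lt_d2
  have hC0 := C_nonneg hR0 hC
  set y := z ^ 8 with hy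
  set d := z ^ 6 with hd
  have hy0 : 0 < y := by positivity
  have hy1 : y ≤ 1 := pow_le_one₀ hz.le hz1
  have hd0 : 0 < d := by positivity
  have hd1 : d ≤ 1 := pow_le_one₀ hz.le hz1
  have admR := adm_R hR0 hC
  have hHadm : Adm (fun n => R n - c) := by
    have := admR.add (adm_const (-c))
    exact this
  have cG := cont_Dir admR hy0
  have cH := cont_Dir hHadm hy0
  have cc1 := cont_Dir (adm_const c) hy0
  have hsub : ∀ x, Dir R (pt x y) - Dir (fun n => R n - c) (pt x y) =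
      Dir (fun _ => c) (pt x y) := by
    intro x
    have hs : 0 < (pt x y).re := by rw [pt_re]; exact hy0
    have h1 := Dir_add hHadm (adm_const c) hs
    simp only [sub_add_cancel] at h1
    have h2 : Dir (fun n => R n) (pt x y) = Dir R (pt x y) := rfl
    rw [← h2, h1]; ring
  have hpt : ∀ x, ‖Dir R (pt x y)‖ ^ 2 ≤ ‖Dir (fun n => R n - c) (pt x y)‖ ^ 2 +
      z * ‖Dir R (pt x y)‖ ^ 2 + z⁻¹ * ‖Dir (fun _ => c) (pt x y)‖ ^ 2 := by
    intro x
    rw [← hsub x]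
    exact norm_sq_le _ _ z hz
  have i1 : ∫ x in d..2 * π - d, ‖Dir R (pt x y)‖ ^ 2 ≤
      (∫ x in d..2 * π - d, ‖Dir (fun n => R n - c) (pt x y)‖ ^ 2) +
      z * (∫ x in d..2 * π - d, ‖Dir R (pt x y)‖ ^ 2) +
      z⁻¹ * ∫ x in d..2 * π - d, ‖Dir (fun _ => c) (pt x y)‖ ^ 2 := by
    rw [← intervalIntegral.integral_const_mul, ← intervalIntegral.integral_const_mul,
      ← intervalIntegral.integral_add (by apply Continuous.intervalIntegrable; fun_prop)
        (by apply Continuous.intervalIntegrable; fun_prop),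
      ← intervalIntegral.integral_add (by apply Continuous.intervalIntegrable; fun_prop)
        (by apply Continuous.intervalIntegrable; fun_prop)]
    apply intervalIntegral.integral_mono_on (by linarith)
      (by apply Continuous.intervalIntegrable; fun_prop)
      (by apply Continuous.intervalIntegrable; fun_prop) (fun x _ => hpt x)
  have i2 : ∀ g : ℝ → ℝ, Continuous g → (∀ x, 0 ≤ g x) →
      ∫ x in d..2 * π - d, g x ≤ ∫ x in (0 : ℝ)..2 * π, g x := by
    intro g hg hg0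
    apply intervalIntegral.integral_mono_interval hd0.le (by linarith) (by linarith)
    · exact Filter.Eventually.of_forall hg0
    · exact hg.intervalIntegrable _ _
  have i3 := i2 (fun x => ‖Dir (fun n => R n - c) (pt x y)‖ ^ 2) (cH.norm.pow 2)
    (fun x => by positivity)
  have i4 := i2 (fun x => ‖Dir R (pt x y)‖ ^ 2) (cG.norm.pow 2) (fun x => by positivity)
  rw [integral_norm_Dir hHadm hy0] at i3
  rw [integral_norm_Dir admR hy0] at i4
  have i5 := integral_Gc_le c hy0 hy1 hd0 hd1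
  have i6 := tsum_R_sq_le hR0 hC hy0 hy1
  have e8 : y * z⁻¹ * (6 * c ^ 2 / d) = 6 * c ^ 2 * z := by
    rw [hy, hd]; field_simp
  have hc2 : c ^ 2 ≤ 9 * C ^ 2 := by nlinarith
  calc y * ∫ x in d..2 * π - d, ‖Dir R (pt x y)‖ ^ 2
      ≤ y * ((∫ x in d..2 * π - d, ‖Dir (fun n => R n - c) (pt x y)‖ ^ 2) +
      z * (∫ x in d..2 * π - d, ‖Dir R (pt x y)‖ ^ 2) +
      z⁻¹ * ∫ x in d..2 * π - d, ‖Dir (fun _ => c) (pt x y)‖ ^ 2) := by gcongr
    _ ≤ y * (2 * π * (∑' n : ℕ, (R n - c) ^ 2 * exp (-(2 * y * n))) +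
      z * (2 * π * ∑' n : ℕ, R n ^ 2 * exp (-(2 * y * n))) + z⁻¹ * (6 * c ^ 2 / d)) := by
        gcongr
    _ = 2 * π * (y * ∑' n : ℕ, (R n - c) ^ 2 * exp (-(2 * y * n))) +
      2 * π * z * (y * ∑' n : ℕ, R n ^ 2 * exp (-(2 * y * n))) + y * z⁻¹ * (6 * c ^ 2 / d) := by
        ring
    _ ≤ 2 * π * (y * ∑' n : ℕ, (R n - c) ^ 2 * exp (-(2 * y * n))) +
      2 * π * z * (3 / 2 * C ^ 2) + 6 * (9 * C ^ 2) * z := by
        rw [e8]; gcongr
    _ ≤ _ := by
        have : 2 * π * z * (3 / 2 * C ^ 2) ≤ 10 * C ^ 2 * z := by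
          have h1 : 0 ≤ C ^ 2 * z := by positivity
          nlinarith
        linarith

lemma Ex_le {α β : ℝ} (hα : 0 ≤ α) (hβ : 0 ≤ β) (n : ℕ) :
    Ex R α β n ≤ (C + α) * (C + β) := by
  have hC0 := C_nonneg hR0 hC
  have h1 := hR0 n
  have h2 := hC n
  unfold Ex
  apply max_le (by positivity)
  have h3 : |R n - α| ≤ C + α := by rw [abs_le]; constructor <;> linarith
  have h4 : |R n - β| ≤ C + β := by rw [abs_le]; constructor <;> linarith
  calc (R n - α) * (R n - β) ≤ |(R n - α) * (R n - β)| := le_abs_self _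
    _ = |R n - α| * |R n - β| := abs_mul _ _
    _ ≤ _ := by gcongr

lemma summable_Ex {α β : ℝ} (hα : 0 ≤ α) (hβ : 0 ≤ β) {t : ℝ} (ht : 0 < t) :
    Summable (fun n : ℕ => Ex R α β n * exp (-(t * n))) := by
  refine Summable.of_nonneg_of_le (fun n => ?_) (fun n => ?_)
    ((summable_exp ht).mul_left ((C + α) * (C + β)))
  · unfold Ex; positivity
  · have := Ex_le hR0 hC hα hβ n
    gcongr

lemma upper2 {α β : ℝ} (hα : 0 ≤ α) (hβ : 0 ≤ β) {y m : ℝ} (hy : 0 < y)
    (hm0 : 0 ≤ m) (hmC : m ≤ 3 / 2 * C) (eR : y * ∑' n : ℕ, R n * exp (-(2 * y * n)) = m) :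
    y * ∑' n : ℕ, (R n - 2 * m) ^ 2 * exp (-(2 * y * n)) ≤
      (α + β) * m - α * β / 2 - 2 * m ^ 2 +
        y * (∑' n : ℕ, Ex R α β n * exp (-(2 * y * n))) + 9 * C ^ 2 * y := by
  have hC0 := C_nonneg hR0 hC
  have h2y : 0 < 2 * y := by positivity
  rw [tsum_sub_sq h2y (2 * m) (summable_R hR0 hC h2y) (summable_R_sq hR0 hC h2y)]
  have hS1 := tsum_exp_le h2y
  have hS2 := le_tsum_exp h2y
  set S := ∑' n : ℕ, exp (-(2 * y * n)) with hS
  have hyS1 : y * S ≤ 1 / 2 + y := by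
    calc y * S ≤ y * ((1 + 2 * y) / (2 * y)) := by gcongr
      _ = 1 / 2 + y := by field_simp
  have hyS2 : 1 / 2 ≤ y * S := by
    calc 1 / 2 = y * (1 / (2 * y)) := by field_simp
      _ ≤ y * S := by gcongr
  have hsq : ∑' n : ℕ, R n ^ 2 * exp (-(2 * y * n)) ≤
      (α + β) * (∑' n : ℕ, R n * exp (-(2 * y * n))) - α * β * S +
        ∑' n : ℕ, Ex R α β n * exp (-(2 * y * n)) := by
    rw [hS, ← tsum_mul_left, ← tsum_mul_left,
      ← ((summable_R hR0 hC h2y).mul_left (α + β)).tsum_sub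
        ((summable_exp h2y).mul_left (α * β)),
      ← (((summable_R hR0 hC h2y).mul_left (α + β)).sub
        ((summable_exp h2y).mul_left (α * β))).tsum_add (summable_Ex hR0 hC hα hβ h2y)]
    refine (summable_R_sq hR0 hC h2y).tsum_le_tsum (fun n => ?_)
      ((((summable_R hR0 hC h2y).mul_left (α + β)).sub
        ((summable_exp h2y).mul_left (α * β))).add (summable_Ex hR0 hC hα hβ h2y))
    have h1 : (R n - α) * (R n - β) ≤ Ex R α β n := le_max_right _ _
    have h2 := exp_pos (-(2 * y * n))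
    have h3 : R n ^ 2 ≤ (α + β) * R n - α * β + Ex R α β n := by nlinarith
    calc R n ^ 2 * exp (-(2 * y * n)) ≤
        ((α + β) * R n - α * β + Ex R α β n) * exp (-(2 * y * n)) := by gcongr
      _ = _ := by ring
  have h3 := mul_le_mul_of_nonneg_left hsq hy.le
  set A1 := ∑' n : ℕ, R n ^ 2 * exp (-(2 * y * n)) with hA1
  set A2 := ∑' n : ℕ, R n * exp (-(2 * y * n)) with hA2
  set A3 := ∑' n : ℕ, Ex R α β n * exp (-(2 * y * n)) with hA3
  have h4 : y * (A1 - 2 * (2 * m) * A2 + (2 * m) ^ 2 * S) =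
      y * A1 - 4 * m * (y * A2) + 4 * m ^ 2 * (y * S) := by ring
  rw [h4, eR]
  have h5 : y * ((α + β) * A2 - α * β * S + A3) =
      (α + β) * (y * A2) - α * β * (y * S) + y * A3 := by ring
  rw [h5, eR] at h3
  have h6 : α * β * (1 / 2) ≤ α * β * (y * S) := by gcongr
  have h7 : 4 * m ^ 2 * (y * S) ≤ 4 * m ^ 2 * (1 / 2 + y) := by gcongr
  have h8 : 4 * m ^ 2 * y ≤ 9 * C ^ 2 * y := by
    have : 4 * m ^ 2 ≤ 9 * C ^ 2 := by nlinarith
    gcongr
  nlinarith

end

end Pool.Agent.Helper65.EH
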