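import Pool.Agent.Helper65.EH.Key

set_option autoImplicit false

open MeasureTheory Metric Real Set

namespace Pool.Agent.Helper65.EH

open Pool.Agent.Helper65.ET (pt pt_re Dir Adm dc Fr adm_a a_sq a_nonneg dc_mul Dir_mul Dir_add
  integral_norm_Dir summable_a norm_F_le norm_F1_le Fr_anti Fr_nonneg per_Dir)

/-- `B(τ) = e^{-τ} ∑ E_n e^{-2 e^{-τ} n}` -/
noncomputable def Bt (R : ℕ → ℝ) (α β : ℝ) (τ : ℝ) : ℝ :=
  exp (-τ) * ∑' j : ℕ, Ex R α β j * exp (-(2 * exp (-τ) * j))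

lemma key_tau {a : ℕ → ℝ} (ha : ∀ n, a n = 0 ∨ a n = 1) {n : ℕ} {C : ℝ} (hP : Parts)
    (hC : ∀ j, cp a (n + 3) j ≤ C) (hC1 : 1 ≤ C) {α β lam δ τ : ℝ} (hα : 0 ≤ α) (hβ : 0 ≤ β)
    (hlam : 0 < lam)
    (hpoly : ∀ m : ℝ, 0 ≤ m →
      δ ≤ 2 * (m ^ (n + 3)) ^ 2 - (α + β) * m ^ (n + 3) + α * β / 2 +
        (n + 3) * lam ^ (n + 2) * m - (n + 2 - 1 / (8 * (n + 3))) * lam ^ (n + 3))
    (hτ : 0 ≤ τ) :
    2 * π * δ ≤ lam ^ (n + 3) * defect (1 / (n + 3 : ℕ)) (Dir (fun n => (√lam)⁻¹ * a n))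
        (Dir (dc (fun n => (√lam)⁻¹ * a n))) (exp (-τ)) +
      2 * π * Bt (cp a (n + 3)) α β τ +
      (121 * C ^ 2 + 128 * (n + 16) * C * lam ^ (n + 2)) * exp (-τ / 8) := by
  have h := key_z ha hP hC hC1 hα hβ hlam hpoly (exp_pos (-τ / 8))
    (by rw [Real.exp_le_one_iff]; linarith)
  have e : exp (-τ / 8) ^ 8 = exp (-τ) := by
    rw [← Real.exp_nat_mul]; congr 1; push_cast; ring
  rw [e] at h
  exact h

set_option maxHeartbeats 1000000 in
/-- no long window of scales on which `B` is small -/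
theorem no_window (hP : Parts) {n : ℕ} {α β C lam δ : ℝ} (hα : 0 ≤ α) (hβ : 0 ≤ β)
    (hC1 : 1 ≤ C) (hlam : 0 < lam) (hδ : 0 < δ)
    (hpoly : ∀ m : ℝ, 0 ≤ m →
      δ ≤ 2 * (m ^ (n + 3)) ^ 2 - (α + β) * m ^ (n + 3) + α * β / 2 +
        (n + 3) * lam ^ (n + 2) * m - (n + 2 - 1 / (8 * (n + 3))) * lam ^ (n + 3)) :
    ∃ T : ℝ, 0 < T ∧ ∃ ε : ℝ, 0 < ε ∧ ∀ a : ℕ → ℝ, (∀ n, a n = 0 ∨ a n = 1) →
      (∀ j, cp a (n + 3) j ≤ C) → ∀ u : ℝ, 0 ≤ u →
        ∃ τ ∈ Icc u (u + T), ε < Bt (cp a (n + 3)) α β τ := by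
  have hpi := Real.pi_gt_three
  set κ := (√lam)⁻¹ with hκ
  have hκ0 : 0 < κ := by positivity
  set k : ℝ := 1 / ((n + 3 : ℕ) : ℝ) with hk
  have hk0 : 0 < k := by positivity
  have hk3 : k ≤ 1 / 3 := by
    rw [hk]; apply one_div_le_one_div_of_le (by norm_num)
    exact_mod_cast (show 3 ≤ n + 3 by omega)
  have hh0 : n + 3 ≠ 0 := by omega
  set Cv := 2 * π * κ ^ 2 * (10 * C) with hCv
  set Cq := 2 * π * (16 * κ ^ 2 * (10 * C)) with hCq
  set D := lam ^ (n + 3) * (12 * (log 9 * Cv) + 4 * (Cv + Cq)) with hD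
  set C1 := 121 * C ^ 2 + 128 * (n + 16) * C * lam ^ (n + 2) with hC1'
  have hC0 : 0 ≤ C := by linarith
  have hC10 : 0 ≤ C1 := by positivity
  have hlog : 0 ≤ log 9 := Real.log_nonneg (by norm_num)
  have hD0 : 0 ≤ D := by positivity
  refine ⟨(D + 8 * C1 + 1) / (π * δ), by positivity, δ / 2, by positivity,
    fun a ha hC u hu => ?_⟩
  set F := Dir (fun n => κ * a n) with hF
  set F1 := Dir (dc (fun n => κ * a n)) with hF1
  have hper := per_Dir ((adm_a ha).mul κ)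
  have hv : ∀ y, 0 < y → y ≤ 9 → ∫ x in (0 : ℝ)..2 * π, vv k F x y ≤ Cv := by
    intro y hy hy9
    rw [hF, int_vv ha k κ hy]
    have h1 := pw_mul_Fr_le ha hP.pow hC hh0 hC1 hy hy9
    calc pw k y * (2 * π * (κ ^ 2 * Fr a (2 * y))) = 2 * π * κ ^ 2 * (pw k y * Fr a (2 * y)) := by
          ring
      _ ≤ Cv := by rw [hCv]; gcongr
  have hq : ∀ y, 0 < y → y ≤ 1 → ∫ x in (0 : ℝ)..2 * π, qq k F F1 x y ≤ Cq := by
    intro y hy hy1
    refine (int_qq_le ha hk0.le hk3 κ hy).trans ?_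
    have h1 := pw_mul_Fr_le ha hP.pow hC hh0 hC1 (show 0 < y / 2 by positivity) (by linarith)
    rw [show 2 * (y / 2) = y by ring] at h1
    have h2 : pw k y ≤ 2 * pw k (y / 2) := by
      have h3 : pw k y = pw k 2 * pw k (y / 2) := by
        unfold pw
        rw [← Real.mul_rpow (by norm_num) (by positivity)]; congr 1; ring
      have h4 : pw k 2 ≤ 2 := by
        unfold pw
        calc (2 : ℝ) ^ k ≤ 2 ^ (1 : ℝ) :=
              Real.rpow_le_rpow_of_exponent_le (by norm_num) (by linarith)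
          _ = 2 := Real.rpow_one 2
      have h5 := pw_pos (k := k) (show 0 < y / 2 by positivity)
      rw [h3]; gcongr
    have h5 := Fr_nonneg ha y
    calc pw k y * (2 * π * (8 * κ ^ 2 * Fr a y)) ≤
        (2 * pw k (y / 2)) * (2 * π * (8 * κ ^ 2 * Fr a y)) := by gcongr
      _ = 2 * π * (16 * κ ^ 2 * (pw k (y / 2) * Fr a y)) := by ring
      _ ≤ Cq := by rw [hCq]; gcongr
  set T := (D + 8 * C1 + 1) / (π * δ) with hT
  have hT0 : 0 < T := by positivity
  by_contra hcon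
  push Not at hcon
  have hcd := cont_defect (k := k) hper
  have hpt : ∀ τ ∈ Icc u (u + T), π * δ ≤ lam ^ (n + 3) * defect k F F1 (exp (-τ)) +
      C1 * exp (-τ / 8) := by
    intro τ hτ
    have h1 := key_tau ha hP hC hC1 hα hβ hlam hpoly (hu.trans hτ.1)
    have h2 := hcon τ hτ
    have h3 : 2 * π * Bt (cp a (n + 3)) α β τ ≤ 2 * π * (δ / 2) := by gcongr
    linarith
  have hint : ∫ τ in u..u + T, (fun _ : ℝ => π * δ) τ ≤
      ∫ τ in u..u + T, (lam ^ (n + 3) * defect k F F1 (exp (-τ)) + C1 * exp (-τ / 8)) := by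
    apply intervalIntegral.integral_mono_on (by linarith)
      (continuous_const.intervalIntegrable _ _) _ hpt
    apply Continuous.intervalIntegrable
    fun_prop
  rw [intervalIntegral.integral_const, smul_eq_mul,
    intervalIntegral.integral_add (by apply Continuous.intervalIntegrable; fun_prop)
      (by apply Continuous.intervalIntegrable; fun_prop),
    intervalIntegral.integral_const_mul, intervalIntegral.integral_const_mul] at hint
  have h1 := integral_defect_le hP.flux hk0 hper hv hq u (u + T) hu (by linarith)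
  have h2 : ∫ τ in u..u + T, exp (-τ / 8) ≤ 8 := by
    rw [intervalIntegral.integral_eq_sub_of_hasDerivAt (f := fun τ => -8 * exp (-τ / 8))]
    · have h3 : exp (-u / 8) ≤ 1 := by rw [Real.exp_le_one_iff]; linarith
      have h4 := exp_pos (-(u + T) / 8)
      linarith
    · intro x _
      have h5 : HasDerivAt (fun τ : ℝ => -τ / 8) (-1 / 8) x := (hasDerivAt_neg x).div_const 8
      have h6 := h5.exp.const_mul (-8)
      refine h6.congr_deriv ?_
      ring
    · apply Continuous.intervalIntegrable; fun_prop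
  have h3 : lam ^ (n + 3) * ∫ τ in u..u + T, defect k F F1 (exp (-τ)) ≤ D := by
    rw [hD]; gcongr
  have h4 : C1 * ∫ τ in u..u + T, exp (-τ / 8) ≤ C1 * 8 := by gcongr
  have h5 : (u + T - u) * (π * δ) = D + 8 * C1 + 1 := by
    rw [hT, add_sub_cancel_left]; field_simp
  linarith

end Pool.Agent.Helper65.EH
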